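import Pool.Agent.W2helper23.SG.Stm

/-!
# Project SG (helper23), piece SG8A: the trivial character of a quadratic extension
-/

set_option autoImplicit false

namespace Pool.Agent.W2helper2.SG

open NumberField NumberField.ComplexEmbedding Pool.Agent.R389 Pool.Agent.K4H74.ST
open Pool.Agent.H302R2 Pool.Agent.H302R3 Pool.Agent.H541R3.ART Pool.Agent.W446.AS
open Pool.Agent.W2helper23.SG

lemma lc_one {G : Type} [Group G] : lc (1 : G →* ℂˣ) = fun _ => 1 := by
  funext g
  simp [lc]

lemma isChar_one {G : Type} [Group G] : IsChar (fun _ : G => (1 : ℂ)) := by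
  rw [← lc_one]
  exact IsChar.lc 1

/-- the trivial character of `Gal(N/F)` -/
lemma val_one_infl {M : Type} [CommGroup M] (B : ArtinInvariant M) (F N : Type) [Field F]
    [NumberField F] [Field N] [NumberField N] [Algebra F N] [IsGalois F N] :
    B.val F N (fun _ => 1) = b1 B F :=
  B.val_infl F F N (fun _ => 1) isChar_one

/-- **SG8A** -/
theorem SG8A (hSG6 : P_SG6) : P_SG8A := by
  classical
  intro M _ B F E N _ _ _ _ _ _ _ _ _ _ _ s t hQ G hG
  have : IsGalois E N := IsGalois.tower_top_of_isGalois F E N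
  obtain ⟨ι, hι, hind⟩ := hSG6 F E N s t hQ
  obtain ⟨hs, ht, -⟩ := hQ
  have h1 : b1 B E = B.val F N (indChar F E N (fun _ => 1)) := by
    rw [B.val_ind F E N (fun _ => 1) isChar_one, val_one_infl]
  have h2 : indChar F E N (fun _ => (1 : ℂ)) = lc 1 + lc s := by
    rw [hind]
    have h := ind_two' hs ht 1
    refine Eq.trans ?_ (h.trans ?_)
    · congr 1
    · congr 2
      ext g
      simp
  have h3 : B.val F N (lc 1) = b1 B F := by rw [lc_one, val_one_infl]
  rw [h1, h2, B.val_add F N _ _ (IsChar.lc 1) (IsChar.lc s), hG N s hs, h3, ← mul_assoc, sq]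

end Pool.Agent.W2helper2.SG
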