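import Pool.Agent.W2helper37.SG.Stm3

/-!
# Project SG, part 2 (MP_56c18a_ag): pieces SYM and FB
-/

set_option autoImplicit false

open Module

namespace Pool.Agent.W2helper2.SG

open Pool.Agent.W2helper37.SG

universe w

theorem p_SYM : P_SYM.{w} := by
  intro K _ _ V _ _ _ B hs hn
  haveI : Invertible (2 : K) := invertibleOfNonzero two_ne_zero
  obtain ⟨v, hv⟩ := LinearMap.BilinForm.exists_orthogonal_basis (B := B)
    ⟨fun x y => by simpa using hs x y⟩
  refine ⟨Fin (finrank K V), inferInstance, inferInstance, v, fun i => B (v i) (v i),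
    fun i => hv.not_isOrtho_basis_self_of_separatingLeft hn i, fun i j => ?_⟩
  split_ifs with h
  · rw [h]
  · exact hv (Ne.symm h)

theorem p_FB : P_FB.{w} := by
  intro hSYM hALT K _ _ V _ _ _ s B hs hB1 hB2 hn
  have hss : ∀ x, s (s x) = x := fun x => by
    have := LinearMap.congr_fun hs x
    simpa using this
  have h2 : (2 : K) ≠ 0 := two_ne_zero
  obtain ⟨P, hP⟩ : ∃ P : Submodule K V, ∀ x, x ∈ P ↔ s x = x :=
    ⟨LinearMap.ker (s - 1), fun x => by simp [sub_eq_zero]⟩
  obtain ⟨Q, hQ⟩ : ∃ Q : Submodule K V, ∀ x, x ∈ Q ↔ s x = -x :=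
    ⟨LinearMap.ker (s + 1), fun x => by simp [add_eq_zero_iff_eq_neg]⟩
  have hPQ : IsCompl P Q := by
    constructor
    · rw [Submodule.disjoint_def]
      intro x hx hx'
      rw [hP] at hx
      rw [hQ] at hx'
      have h3 : x = -x := hx.symm.trans hx'
      have h4 : (2 : K) • x = 0 := by
        rw [two_smul]
        nth_rewrite 2 [h3]
        exact add_neg_cancel x
      exact (smul_eq_zero.mp h4).resolve_left h2
    · rw [codisjoint_iff, eq_top_iff]
      intro x _
      have h3 : x = (2 : K)⁻¹ • (x + s x) + (2 : K)⁻¹ • (x - s x) := by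
        rw [← smul_add, show x + s x + (x - s x) = (2 : K) • x by rw [two_smul]; abel,
          inv_smul_smul₀ h2]
      rw [h3]
      refine Submodule.add_mem_sup (P.smul_mem _ ?_) (Q.smul_mem _ ?_)
      · rw [hP, map_add, hss, add_comm]
      · rw [hQ, map_sub, hss]
        abel
  have hPQ0 : ∀ x ∈ P, ∀ y ∈ Q, B x y = 0 ∧ B y x = 0 := by
    intro x hx y hy
    rw [hP] at hx
    rw [hQ] at hy
    have h3 := hB1 x y
    have h4 := hB1 y x
    rw [hx, hy, map_neg] at h3
    rw [hx, hy, map_neg, LinearMap.neg_apply] at h4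
    have key : ∀ a : K, -a = a → a = 0 := by
      intro a ha
      have h5 : (2 : K) * a = 0 := by
        rw [two_mul]
        nth_rewrite 1 [← ha]
        exact neg_add_cancel a
      exact (mul_eq_zero.mp h5).resolve_left h2
    exact ⟨key _ h3, key _ h4⟩
  have hdec : ∀ z : V, ∃ a ∈ P, ∃ b ∈ Q, z = a + b := by
    intro z
    have h3 : z ∈ P ⊔ Q := by rw [hPQ.sup_eq_top]; trivial
    obtain ⟨a, ha, b, hb, h4⟩ := Submodule.mem_sup.mp h3
    exact ⟨a, ha, b, hb, h4.symm⟩
  -- the even part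
  obtain ⟨ι₀, i1, i2, v₀, γ₀, hγ₀, hv₀⟩ := hSYM K P
    ((B.domRestrict P).compl₂ P.subtype) (by
      intro x y
      simp only [LinearMap.compl₂_apply, LinearMap.domRestrict_apply, Submodule.subtype_apply]
      rw [hB2 x y, (hP _).mp x.2]) (by
      intro x hx
      refine Subtype.ext (hn x fun z => ?_)
      obtain ⟨a, ha, b, hb, rfl⟩ := hdec z
      rw [map_add, (hPQ0 x x.2 b hb).1, add_zero]
      exact hx ⟨a, ha⟩)
  obtain ⟨n, v₁, hv₁⟩ := hALT K Q
    ((B.domRestrict Q).compl₂ Q.subtype) (by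
      intro x y
      simp only [LinearMap.compl₂_apply, LinearMap.domRestrict_apply, Submodule.subtype_apply]
      rw [hB2 x y, (hQ _).mp x.2, map_neg]) (by
      intro x hx
      refine Subtype.ext (hn x fun z => ?_)
      obtain ⟨a, ha, b, hb, rfl⟩ := hdec z
      rw [map_add, (hPQ0 a ha x x.2).2, zero_add]
      exact hx ⟨b, hb⟩)
  simp only [LinearMap.compl₂_apply, LinearMap.domRestrict_apply, Submodule.subtype_apply]
    at hv₀ hv₁
  obtain ⟨v, hvl, hvr⟩ : ∃ v : Basis (ι₀ ⊕ (Fin n × Bool)) K V,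
      (∀ i, v (Sum.inl i) = v₀ i) ∧ ∀ j, v (Sum.inr j) = v₁ j := by
    refine ⟨(v₀.prod v₁).map (Submodule.prodEquivOfIsCompl P Q hPQ), fun i => ?_, fun j => ?_⟩
    · simp
    · simp
  refine ⟨ι₀ ⊕ (Fin n × Bool), inferInstance, inferInstance, v,
    Sum.elim (fun _ => false) (fun _ => true),
    Sum.elim Sum.inl (fun j => Sum.inr (j.1, !j.2)),
    Sum.elim γ₀ (fun j => if j.2 then 1 else -1),
    Sum.elim (fun _ => 0) (fun j => if j.2 then 1 else -1), ⟨?_, ?_, ?_, ?_, ?_, ?_, ?_⟩, ?_, ?_⟩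
  · rintro (i | ⟨j, c⟩) <;> simp
  · rintro (i | ⟨j, c⟩) <;> simp
  · rintro (i | ⟨j, c⟩)
    · simpa using hγ₀ i
    · cases c <;> simp
  · rintro (i | ⟨j, c⟩)
    · simp [sg]
    · cases c <;> simp [sg]
  · rintro (i | ⟨j, c⟩) h
    · simp
    · simp at h
  · rintro (i | ⟨j, c⟩) h
    · simp at h
    · cases c <;> simp
  · rintro (i | ⟨j, c⟩)
    · simp
    · cases c <;> simp
  · rintro (i | j)
    · simp only [Sum.elim_inl, sg, hvl, Bool.false_eq_true, if_false, one_smul]
      exact (hP _).mp (v₀ i).2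
    · simp only [Sum.elim_inr, sg, hvr, if_true, neg_smul, one_smul]
      exact (hQ _).mp (v₁ j).2
  · rintro (i | i) (j | j)
    · simp only [hvl, Sum.elim_inl, Sum.inl.injEq]
      exact hv₀ i j
    · simp only [hvl, hvr, Sum.elim_inl, reduceCtorEq, if_false]
      exact (hPQ0 _ (v₀ i).2 _ (v₁ j).2).1
    · simp only [hvl, hvr, Sum.elim_inr, reduceCtorEq, if_false]
      exact (hPQ0 _ (v₀ j).2 _ (v₁ i).2).2
    · simp only [hvr, Sum.elim_inr, Sum.inr.injEq]
      exact hv₁ i j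

end Pool.Agent.W2helper2.SG
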